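import Pool.Agent.H26.BMT.Defs
import Pool.Agent.H26.BMT.Word

/-!
# The minimal letter density for the Baker–McNulty–Taylor pattern is `1/4`

For the pattern `p = abXbcYcaZbaTac` over the alphabet `{0,1,2,3}`, the minimal asymptotic density `ρ_p` of
the letter `3` in words avoiding `p` equals `1/4`; the lower limit in its definition is a limit.
The lower bound: an infinite word avoiding `p` has, for every `K`, a tail which contains no occurrence
`AB, BC, CA, BA, AC` with `|A|, |B|, |C| ≤ K` (`BMT26.exists_tail`); a finite search (`BMT26.chk_t112`,
checked by the kernel) shows that in such a tail every second letter alternates between two letters not used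
at the other positions (`BMT26.structure_thm`); pairing letters gives again such a word, and iterating yields
the density. A compactness argument passes from long finite words to infinite ones.
The upper bound: a word of paperfolding type avoids `p`.
-/

namespace Pool.Agent.Results.MP_3d374d_co.DensityQuarter

open BMTDensity

theorem minCount_le (k : ℕ) : 4 * minCount k ≤ k := by
  obtain ⟨w, hw, hc⟩ := BMT26.exists_small k
  have : minCount k ≤ w.count 3 := Nat.sInf_le ⟨w, hw, rfl⟩
  omega

theorem nonempty (k : ℕ) : (F k).Nonempty := by
  obtain ⟨w, hw, _⟩ := BMT26.exists_small k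
  exact ⟨w, hw⟩

theorem tendsto : Filter.Tendsto (fun k : ℕ => (minCount k : ℝ) / k) Filter.atTop (nhds (1 / 4)) := by
  rw [Metric.tendsto_atTop]
  intro e he
  obtain ⟨k0, hk0⟩ := BMT26.eventually_lower (e / 4) (by positivity)
  refine ⟨k0 + 1, fun k hk => ?_⟩
  have hkpos : (0 : ℝ) < k := by
    have : 0 < k := by omega
    exact_mod_cast this
  have h1 : (4 : ℝ) * minCount k ≤ k := by exact_mod_cast minCount_le k
  have h2 : (1 / 4 - 2 * (e / 4)) * k ≤ (minCount k : ℝ) := by
    obtain ⟨w, hw, hc⟩ := Nat.sInf_mem ((nonempty k).image (fun w : List (Fin 4) => w.count 3))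
    have := hk0 k (by omega) w hw
    have hc' : w.count 3 = minCount k := hc
    rw [hc'] at this
    exact this
  rw [Real.dist_eq, abs_lt]
  constructor
  · rw [lt_sub_iff_add_lt, lt_div_iff₀ hkpos]
    nlinarith
  · rw [sub_lt_iff_lt_add, div_lt_iff₀ hkpos]
    nlinarith

/-- For every length there are words avoiding the pattern, and the minimal density of a letter is `1/4`
(the lower limit defining it being a limit). -/
theorem result : (∀ k, (F k).Nonempty) ∧ rho = 1 / 4 ∧
    Filter.Tendsto (fun k : ℕ => (minCount k : ℝ) / k) Filter.atTop (nhds (1 / 4)) :=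
  ⟨nonempty, tendsto.liminf_eq, tendsto⟩

end Pool.Agent.Results.MP_3d374d_co.DensityQuarter
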